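import Pool.Agent.helper55.BL.Spec

/-! Row BL:ARC. -/

set_option autoImplicit false

namespace Pool.Agent.helper55.BL

open Finset
open scoped Classical
open Pool.Agent.helper61.BM (Clo dg)

/-- A closed path, cut into two parts, can be rotated. -/
lemma ARC_rot {V : Type} (G : SimpleGraph V) (X Y : List V) (h : Clo G (X ++ Y)) : Clo G (Y ++ X) := by
  rcases X.eq_nil_or_concat with hX | ⟨X', x, hX⟩
  · subst hX
    simpa using h
  rcases Y with _ | ⟨y, Y'⟩
  · simpa using h
  obtain ⟨h1, h2, h3⟩ := h
  rw [List.isChain_append] at h2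
  obtain ⟨hcX, hcY, hXY⟩ := h2
  have hxl : X.getLast? = some x := by rw [hX]; simp
  refine ⟨?_, ?_, ?_⟩
  · exact (List.perm_append_comm.nodup_iff).1 h1
  · rw [List.isChain_append]
    refine ⟨hcY, hcX, ?_⟩
    intro a ha b hb
    apply h3 b ?_ a ?_
    · rw [List.head?_append]
      rw [Option.mem_def] at hb ⊢
      rw [hb]
      rfl
    · rw [List.getLast?_append]
      rw [Option.mem_def] at ha ⊢
      rw [ha]
      rfl
  · intro a ha b hb
    have ha' : a = y := by
      simpa using ha.symm
    have hb' : b = x := by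
      rw [List.getLast?_append, hxl] at hb
      simpa using hb.symm
    rw [ha', hb']
    exact hXY x (by rw [hxl]; rfl) y (by simp)

lemma ARC_close {V : Type} (G : SimpleGraph V) (Q B : List V) (u v : V) (hQ : Pa G Q)
    (hu : Q.head? = some u) (hv : Q.getLast? = some v) (hB : B ≠ []) (hBn : B.Nodup)
    (hBc : B.IsChain G.Adj) (hd : ∀ w ∈ Q, w ∉ B) (h1 : ∀ b ∈ B.head?, G.Adj v b)
    (h2 : ∀ b ∈ B.getLast?, G.Adj b u) : Clo G (Q ++ B) ∧ Q.length + 1 ≤ (Q ++ B).length := by
  refine ⟨⟨?_, ?_, ?_⟩, ?_⟩
  · rw [List.nodup_append]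
    refine ⟨hQ.1, hBn, ?_⟩
    intro a ha b hb hab
    exact hd a ha (hab ▸ hb)
  · rw [List.isChain_append]
    refine ⟨hQ.2, hBc, ?_⟩
    intro a ha b hb
    rw [hv] at ha
    have : v = a := by simpa using ha
    rw [← this]
    exact h1 b hb
  · intro a ha b hb
    rw [List.head?_append, hu] at ha
    have ha' : u = a := by simpa using ha
    rw [List.getLast?_append] at hb
    have hb' : b ∈ B.getLast? := by
      cases hBl : B.getLast? with
      | none => exact absurd (List.getLast?_eq_none_iff.1 hBl) hB
      | some c =>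
        rw [hBl] at hb
        simpa using hb
    rw [← ha']
    exact h2 b hb'
  · rw [List.length_append]
    have : 0 < B.length := List.length_pos_iff.2 hB
    omega

theorem ARC : ARC_stmt := by
  intro V G l Q u v hl hlen hQ hu hv huv hul hvl hint
  obtain ⟨P, R, rfl⟩ := List.append_of_mem hul
  have h1 : Clo G ((u :: R) ++ P) := ARC_rot G P (u :: R) hl
  have hvm : v ∈ R ++ P := by
    have h2 : v ∈ P ∨ v = u ∨ v ∈ R := by simpa using hvl
    rcases h2 with h2 | h2 | h2
    · exact List.mem_append_right _ h2
    · exact absurd h2.symm huv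
    · exact List.mem_append_left _ h2
  obtain ⟨A, B, hAB⟩ := List.append_of_mem hvm
  have h3 : Clo G (u :: (A ++ v :: B)) := by
    rw [← hAB]
    exact h1
  have hmem : ∀ w, w ∈ u :: (A ++ v :: B) → w ∈ P ++ u :: R := by
    intro w hw
    rw [← hAB] at hw
    have h4 : w = u ∨ w ∈ R ∨ w ∈ P := by simpa using hw
    have h5 : w ∈ P ∨ w = u ∨ w ∈ R := by tauto
    simpa using h5
  have hlen2 : (P ++ u :: R).length = A.length + B.length + 2 := by
    have h6 := congrArg List.length hAB
    simp only [List.length_append, List.length_cons] at h6 ⊢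
    omega
  obtain ⟨hn, hc, hcl⟩ := h3
  have hn' : (u :: A ++ v :: B).Nodup := hn
  have hc' : ((u :: A) ++ v :: B).IsChain G.Adj := hc
  rw [List.isChain_append] at hc'
  obtain ⟨hcA, hcB, hcAB⟩ := hc'
  rw [List.nodup_append] at hn'
  obtain ⟨hnA, hnB, hnAB⟩ := hn'
  rcases B with _ | ⟨b, B⟩
  · -- `A` is not empty
    have hA : A ≠ [] := by
      intro hA
      rw [hA] at hlen2
      rw [hlen2] at hlen
      simp at hlen
    have hAu : u ∉ A := (List.nodup_cons.1 hnA).1
    have hAv : v ∉ A := fun h => hnAB v (List.mem_cons_of_mem _ h) v (by simp) rfl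
    refine ⟨Q ++ A.reverse, ?_⟩
    apply ARC_close G Q A.reverse u v hQ hu hv
    · simpa using hA
    · exact List.nodup_reverse.2 (List.nodup_cons.1 hnA).2
    · rw [List.isChain_reverse]
      exact (hcA.tail).imp (fun a b h => h.symm)
    · intro w hw hwA
      rw [List.mem_reverse] at hwA
      rcases hint w hw (hmem w (by simp [hwA])) with h | h
      · exact hAu (h ▸ hwA)
      · exact hAv (h ▸ hwA)
    · intro c hc2
      rw [List.head?_reverse] at hc2
      have h7 : c ∈ (u :: A).getLast? := by
        cases A with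
        | nil => exact absurd rfl hA
        | cons a A' => simpa using hc2
      exact (hcAB c h7 v (by simp)).symm
    · intro c hc2
      rw [List.getLast?_reverse] at hc2
      cases A with
      | nil => exact absurd rfl hA
      | cons a A' =>
        have h8 : a = c := by simpa using hc2
        rw [← h8]
        rw [List.isChain_cons_cons] at hcA
        exact hcA.1.symm
  · have hBu : u ∉ b :: B := fun h => hnAB u (by simp) u (List.mem_cons_of_mem _ h) rfl
    have hBv : v ∉ b :: B := (List.nodup_cons.1 hnB).1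
    refine ⟨Q ++ (b :: B), ?_⟩
    apply ARC_close G Q (b :: B) u v hQ hu hv (by simp) (List.nodup_cons.1 hnB).2 hcB.tail
    · intro w hw hwB
      rcases hint w hw (hmem w (by
        rw [List.mem_cons, List.mem_append]
        exact Or.inr (Or.inr (List.mem_cons_of_mem _ hwB)))) with h | h
      · exact hBu (h ▸ hwB)
      · exact hBv (h ▸ hwB)
    · intro c hc2
      have h9 : b = c := by simpa using hc2
      rw [← h9]
      rw [List.isChain_cons_cons] at hcB
      exact hcB.1
    · intro c hc2
      apply hcl u (by simp) c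
      have h10 : (u :: (A ++ v :: b :: B)) = (u :: A ++ [v]) ++ (b :: B) := by simp
      rw [h10, List.getLast?_append]
      rw [Option.mem_def] at hc2 ⊢
      rw [hc2]
      rfl

end Pool.Agent.helper55.BL
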